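import Pool.Agent.H95.ILV.Targets

/-!
Row SIA of the board ilv: interpolation of bounded data on finite subsets of a Sidon set by
Fourier coefficients of an integrable function (duality).
-/

set_option autoImplicit false

open MeasureTheory AddCircle Filter Topology Pool.Agent.H87.Synth Pool.Agent.H23.Synth
  Pool.Agent.H95.ILV

namespace Pool.Agent.H35.ILV

noncomputable section

/-- The linear map from finitely supported coefficients to trigonometric polynomials. -/
def TT : (ℤ →₀ ℂ) →ₗ[ℂ] C(Circ, ℂ) :=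
  Finsupp.linearCombination ℂ (fun n : ℤ => (fourier (-n) : C(Circ, ℂ)))

theorem TT_apply (c : ℤ →₀ ℂ) (x : Circ) :
    TT c x = ∑ n ∈ c.support, c n * (fourier (-n) x : ℂ) := by
  unfold TT
  rw [Finsupp.linearCombination_apply, Finsupp.sum, ContinuousMap.sum_apply]
  rfl

theorem TT_neg (c : ℤ →₀ ℂ) (x : Circ) :
    TT c (-x) = ∑ n ∈ c.support, c n * (fourier n x : ℂ) := by
  rw [TT_apply]
  refine Finset.sum_congr rfl (fun n _ => ?_)
  congr 1
  simp [fourier_apply]

/-- The Hahn-Banach functional. -/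
theorem exists_functional {E : Set ℤ} (hE : Sidon E) : ∃ C : ℝ, 0 < C ∧
    ∀ (A : Finset ℤ) (φ : ℤ → ℂ) (b : ℝ), (∀ n ∈ A, n ∈ E) → (∀ n ∈ A, ‖φ n‖ ≤ b) → 0 ≤ b →
    ∃ Λ : C(Circ, ℂ) →L[ℂ] ℂ, ‖Λ‖ ≤ C * b ∧
      ∀ n ∈ E, Λ (fourier (-n)) = if n ∈ A then φ n else 0 := by
  obtain ⟨C0, hC0⟩ := hE
  refine ⟨|C0| + 1, by positivity, ?_⟩
  intro A φ b hA hφ hb
  -- Sidon's inequality
  have hS : ∀ c : ℤ →₀ ℂ, c ∈ Finsupp.supported ℂ ℂ E →
      ∑ n ∈ c.support, ‖c n‖ ≤ (|C0| + 1) * ‖TT c‖ := by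
    intro c hc
    have h1 := hC0 c ‖TT c‖ (fun n hn => (Finsupp.mem_supported ℂ c).1 hc hn) (fun x => by
      rw [← TT_neg]
      exact ContinuousMap.norm_coe_le_norm _ _)
    refine h1.trans (mul_le_mul_of_nonneg_right ?_ (norm_nonneg _))
    have := le_abs_self C0
    linarith
  set T := TT.domRestrict (Finsupp.supported ℂ ℂ E) with hT
  have hTap : ∀ c, T c = TT (c : ℤ →₀ ℂ) := fun c => rfl
  have hinj : Function.Injective T := by
    intro c1 c2 hc12
    have hc0 : TT ((c1 : ℤ →₀ ℂ) - (c2 : ℤ →₀ ℂ)) = 0 := by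
      rw [map_sub, ← hTap, ← hTap, hc12, sub_self]
    have h1 := hS ((c1 : ℤ →₀ ℂ) - (c2 : ℤ →₀ ℂ)) (Submodule.sub_mem _ c1.2 c2.2)
    rw [hc0, norm_zero, mul_zero] at h1
    obtain ⟨c, hcdef⟩ : ∃ c : ℤ →₀ ℂ, c = (c1 : ℤ →₀ ℂ) - (c2 : ℤ →₀ ℂ) := ⟨_, rfl⟩
    rw [← hcdef] at h1
    have h2 : ∀ n ∈ c.support, ‖c n‖ = 0 := by
      have h3 : ∑ n ∈ c.support, ‖c n‖ = 0 :=
        le_antisymm h1 (Finset.sum_nonneg fun _ _ => norm_nonneg _)
      exact (Finset.sum_eq_zero_iff_of_nonneg fun _ _ => norm_nonneg _).1 h3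
    have h4 : c = 0 := by
      apply Finsupp.support_eq_empty.1
      rw [Finset.eq_empty_iff_forall_notMem]
      intro n hn
      exact (Finsupp.mem_support_iff.1 hn) (norm_eq_zero.1 (h2 n hn))
    rw [hcdef] at h4
    exact Subtype.ext (sub_eq_zero.1 h4)
  set F : (ℤ →₀ ℂ) →ₗ[ℂ] ℂ :=
    Finsupp.linearCombination ℂ (fun n : ℤ => if n ∈ A then φ n else 0) with hF
  have hFle : ∀ c : ℤ →₀ ℂ, c ∈ Finsupp.supported ℂ ℂ E →
      ‖F c‖ ≤ (|C0| + 1) * b * ‖TT c‖ := by
    intro c hc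
    rw [hF, Finsupp.linearCombination_apply, Finsupp.sum]
    calc ‖∑ n ∈ c.support, c n • (if n ∈ A then φ n else 0)‖
        ≤ ∑ n ∈ c.support, ‖c n • (if n ∈ A then φ n else 0)‖ := norm_sum_le _ _
      _ ≤ ∑ n ∈ c.support, ‖c n‖ * b := by
          refine Finset.sum_le_sum (fun n _ => ?_)
          rw [norm_smul]
          refine mul_le_mul_of_nonneg_left ?_ (norm_nonneg _)
          by_cases h : n ∈ A
          · rw [if_pos h]
            exact hφ n h
          · rw [if_neg h, norm_zero]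
            exact hb
      _ = b * ∑ n ∈ c.support, ‖c n‖ := by rw [← Finset.sum_mul, mul_comm]
      _ ≤ b * ((|C0| + 1) * ‖TT c‖) := mul_le_mul_of_nonneg_left (hS c hc) hb
      _ = (|C0| + 1) * b * ‖TT c‖ := by ring
  let e := LinearEquiv.ofInjective T hinj
  let ℓ₀ : LinearMap.range T →ₗ[ℂ] ℂ :=
    (F.domRestrict (Finsupp.supported ℂ ℂ E)) ∘ₗ (e.symm : LinearMap.range T →ₗ[ℂ] _)
  have hb0 : 0 ≤ (|C0| + 1) * b := by positivity
  have hℓ : ∀ w : LinearMap.range T, ‖ℓ₀ w‖ ≤ (|C0| + 1) * b * ‖w‖ := by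
    intro w
    have h1 : (w : C(Circ, ℂ)) = T (e.symm w) := by
      have := e.apply_symm_apply w
      rw [← this]
      simp only [LinearEquiv.symm_apply_apply]
      rfl
    have h2 : ‖w‖ = ‖TT ((e.symm w : Finsupp.supported ℂ ℂ E) : ℤ →₀ ℂ)‖ := by
      rw [← hTap, ← h1]
      rfl
    rw [h2]
    exact hFle _ (e.symm w).2
  obtain ⟨Λ, hΛ1, hΛ2⟩ := exists_extension_norm_eq (LinearMap.range T)
    (ℓ₀.mkContinuous ((|C0| + 1) * b) hℓ)
  refine ⟨Λ, ?_, ?_⟩
  · rw [hΛ2]
    exact LinearMap.mkContinuous_norm_le _ hb0 _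
  · intro n hn
    have hmem : Finsupp.single n (1 : ℂ) ∈ Finsupp.supported ℂ ℂ E :=
      Finsupp.single_mem_supported ℂ 1 hn
    have h1 : T ⟨Finsupp.single n (1 : ℂ), hmem⟩ = (fourier (-n) : C(Circ, ℂ)) := by
      rw [hTap]
      unfold TT
      rw [Finsupp.linearCombination_single, one_smul]
    have h2 : (fourier (-n) : C(Circ, ℂ)) =
        ((e ⟨Finsupp.single n (1 : ℂ), hmem⟩ : LinearMap.range T) : C(Circ, ℂ)) := h1.symm
    rw [h2, hΛ1]
    show F ((e.symm (e ⟨Finsupp.single n (1 : ℂ), hmem⟩) : Finsupp.supported ℂ ℂ E) :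
      ℤ →₀ ℂ) = _
    rw [e.symm_apply_apply, hF]
    show Finsupp.linearCombination ℂ (fun n : ℤ => if n ∈ A then φ n else 0)
      (Finsupp.single n (1 : ℂ)) = _
    rw [Finsupp.linearCombination_single, one_smul]

/-- Norm of a trigonometric polynomial whose coefficients are values of a functional. -/
theorem norm_le_functional (Λ : C(Circ, ℂ) →L[ℂ] ℂ) (s : Finset ℤ) (t : ℤ → ℂ) :
    ‖(∑ n ∈ s, (t n * Λ (fourier (-n))) • ex n : L1)‖ ≤
      ‖Λ‖ * ‖(∑ n ∈ s, t n • ex n : L1)‖ := by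
  rw [norm_sum_ex, norm_sum_ex]
  set g : Circ → ℂ := fun x => ∑ n ∈ s, (t n * Λ (fourier (-n))) * (fourier n x : ℂ) with hg
  set V : Circ → ℂ := fun x => ∑ n ∈ s, t n * (fourier n x : ℂ) with hV
  have hgc : Continuous g :=
    continuous_finsetSum s fun n _ => continuous_const.mul (fourier n).continuous
  have hVc : Continuous V :=
    continuous_finsetSum s fun n _ => continuous_const.mul (fourier n).continuous
  -- the unimodular factor
  set σ : Circ → ℂ := fun x => (starRingEnd ℂ (g x)) * ((‖g x‖⁻¹ : ℝ) : ℂ) with hσ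
  have hσm : Measurable σ := by
    refine (Complex.continuous_conj.comp hgc).measurable.mul ?_
    exact Complex.measurable_ofReal.comp (hgc.norm.measurable.inv)
  have hσ1 : ∀ x, ‖σ x‖ ≤ 1 := by
    intro x
    rw [hσ]
    simp only [norm_mul, RCLike.norm_conj, Complex.norm_real, norm_inv, norm_norm]
    by_cases h : ‖g x‖ = 0
    · rw [h]; simp
    · rw [mul_inv_cancel₀ h]
  have hσg : ∀ x, σ x * g x = ((‖g x‖ : ℝ) : ℂ) := by
    intro x
    rw [hσ]
    simp only
    by_cases h : ‖g x‖ = 0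
    · rw [norm_eq_zero.1 h]; simp
    · have h1 : (starRingEnd ℂ (g x)) * g x = ((‖g x‖ ^ 2 : ℝ) : ℂ) := by
        rw [Complex.conj_mul']
        push_cast
        rfl
      calc (starRingEnd ℂ (g x)) * ((‖g x‖⁻¹ : ℝ) : ℂ) * g x
          = (starRingEnd ℂ (g x)) * g x * ((‖g x‖⁻¹ : ℝ) : ℂ) := by ring
        _ = ((‖g x‖ ^ 2 : ℝ) : ℂ) * ((‖g x‖⁻¹ : ℝ) : ℂ) := by rw [h1]
        _ = ((‖g x‖ : ℝ) : ℂ) := by
            rw [← Complex.ofReal_mul]
            congr 1
            field_simp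
  have hint : ∀ f : Circ → ℂ, Continuous f → Integrable (fun x => σ x * f x) haarAddCircle := by
    intro f hf
    have hfi : Integrable f haarAddCircle :=
      hf.integrable_of_hasCompactSupport (HasCompactSupport.of_compactSpace _)
    exact hfi.bdd_mul (c := 1) hσm.aestronglyMeasurable (Eventually.of_forall hσ1)
  -- the coefficients
  set c : ℤ → ℂ := fun n => ∫ x : Circ, σ x * (fourier n x : ℂ) ∂haarAddCircle with hc
  set P : C(Circ, ℂ) := ∑ n ∈ s, (t n * c n) • (fourier (-n) : C(Circ, ℂ)) with hP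
  have h1 : ((∫ x : Circ, ‖g x‖ ∂haarAddCircle : ℝ) : ℂ) = Λ P := by
    have e1 : ((∫ x : Circ, ‖g x‖ ∂haarAddCircle : ℝ) : ℂ) =
        ∫ x : Circ, σ x * g x ∂haarAddCircle := by
      refine (integral_ofReal (𝕜 := ℂ)).symm.trans ?_
      refine integral_congr_ae (Eventually.of_forall fun x => ?_)
      exact (hσg x).symm
    have e2 : ∀ x, σ x * g x = ∑ n ∈ s, (t n * Λ (fourier (-n))) * (σ x * (fourier n x : ℂ)) := by
      intro x
      rw [hg]
      simp only
      rw [Finset.mul_sum]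
      refine Finset.sum_congr rfl (fun n _ => ?_)
      ring
    rw [e1]
    simp only [e2]
    rw [integral_finsetSum s fun n _ => (hint _ (fourier n).continuous).const_mul _, hP,
      map_sum]
    refine Finset.sum_congr rfl (fun n _ => ?_)
    rw [integral_const_mul, map_smul, smul_eq_mul, hc]
    ring
  have h2 : ‖P‖ ≤ ∫ x : Circ, ‖V x‖ ∂haarAddCircle := by
    rw [ContinuousMap.norm_le P (integral_nonneg fun x => norm_nonneg _)]
    intro y
    have e1 : P y = ∫ x : Circ, σ x * V (x - y) ∂haarAddCircle := by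
      have e2 : ∀ x, σ x * V (x - y) =
          ∑ n ∈ s, (t n * (fourier (-n) y : ℂ)) * (σ x * (fourier n x : ℂ)) := by
        intro x
        rw [hV]
        simp only
        rw [Finset.mul_sum]
        refine Finset.sum_congr rfl (fun n _ => ?_)
        have e3 : (fourier n (x - y) : ℂ) = (fourier n x : ℂ) * (fourier (-n) y : ℂ) := by
          rw [sub_eq_add_neg]
          simp only [fourier_apply, smul_add, toCircle_add, Circle.coe_mul, smul_neg, neg_smul]
        rw [e3]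
        ring
      simp only [e2]
      rw [integral_finsetSum s fun n _ => (hint _ (fourier n).continuous).const_mul _, hP,
        ContinuousMap.sum_apply]
      refine Finset.sum_congr rfl (fun n _ => ?_)
      rw [integral_const_mul, ContinuousMap.smul_apply, smul_eq_mul, hc]
      ring
    rw [e1]
    have hVi : Integrable (fun x => ‖V (x - y)‖) haarAddCircle :=
      ((hVc.comp (continuous_id.sub continuous_const)).norm).integrable_of_hasCompactSupport
        (HasCompactSupport.of_compactSpace _)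
    calc ‖∫ x : Circ, σ x * V (x - y) ∂haarAddCircle‖
        ≤ ∫ x : Circ, ‖V (x - y)‖ ∂haarAddCircle := by
          refine norm_integral_le_of_norm_le hVi (Eventually.of_forall fun x => ?_)
          rw [norm_mul]
          calc ‖σ x‖ * ‖V (x - y)‖ ≤ 1 * ‖V (x - y)‖ :=
                mul_le_mul_of_nonneg_right (hσ1 x) (norm_nonneg _)
            _ = ‖V (x - y)‖ := one_mul _
      _ = ∫ x : Circ, ‖V x‖ ∂haarAddCircle :=
          integral_sub_right_eq_self (fun x => ‖V x‖) y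
  have h3 : (∫ x : Circ, ‖g x‖ ∂haarAddCircle) = ‖Λ P‖ := by
    rw [← h1, Complex.norm_real, Real.norm_of_nonneg (integral_nonneg fun x => norm_nonneg _)]
  show (∫ x : Circ, ‖g x‖ ∂haarAddCircle) ≤ ‖Λ‖ * ∫ x : Circ, ‖V x‖ ∂haarAddCircle
  rw [h3]
  exact (Λ.le_opNorm P).trans (mul_le_mul_of_nonneg_left h2 (norm_nonneg _))

theorem pf_SIA (h1 : T_VPC) (h2 : T_VPN) : T_SIA := by
  intro E hE
  obtain ⟨C, hC, hex⟩ := exists_functional hE
  refine ⟨C * 3, by positivity, ?_⟩
  intro A φ b hA hφ hb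
  obtain ⟨Λ, hΛ, hval⟩ := hex A φ b hA hφ hb
  obtain ⟨L, hL1, hLA⟩ : ∃ L : ℕ, 1 ≤ L ∧ ∀ n ∈ A, n.natAbs ≤ L := by
    refine ⟨A.sup Int.natAbs + 1, by omega, ?_⟩
    intro n hn
    have := Finset.le_sup (f := Int.natAbs) hn
    omega
  set s : Finset ℤ := Finset.Icc (-(2 * (L : ℤ))) (2 * L) with hs
  have hLr : (0 : ℝ) < L := by exact_mod_cast hL1
  -- the kernel
  have hV : VP L L = ∑ n ∈ s, ((tz L L n : ℝ) : ℂ) • ex n := by
    apply ext_coeff
    intro m
    rw [h1 L L m hL1, coeff_sum]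
    simp only [coeff_smul, coeff_ex, mul_ite, mul_one, mul_zero]
    rw [Finset.sum_ite_eq' s m]
    by_cases hm : m ∈ s
    · rw [if_pos hm]
    · rw [if_neg hm]
      have h3 : 2 * (L : ℤ) < |m| := by
        rw [hs, Finset.mem_Icc, not_and_or, not_le, not_le] at hm
        rcases hm with h | h
        · rw [lt_abs]; right; linarith
        · rw [lt_abs]; left; exact h
      have h4 : 2 * (L : ℝ) < |(m : ℝ)| := by
        have : ((2 * (L : ℤ) : ℤ) : ℝ) < ((|m| : ℤ) : ℝ) := by exact_mod_cast h3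
        push_cast at this
        exact this
      have h5 : ((L : ℝ) + L - |(m : ℝ)|) / L ≤ 0 :=
        div_nonpos_of_nonpos_of_nonneg (by linarith) hLr.le
      have h6 : tz L L m = 0 := by
        unfold tz
        rw [min_eq_right (h5.trans zero_le_one), max_eq_left h5]
      rw [h6]
      simp
  have hVn : ‖(∑ n ∈ s, ((tz L L n : ℝ) : ℂ) • ex n : L1)‖ ≤ 3 := by
    rw [← hV]
    have := h2 L L 0 hL1 (by simp)
    simpa using this
  set g : L1 := ∑ n ∈ s, (((tz L L n : ℝ) : ℂ) * Λ (fourier (-n))) • ex n with hg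
  have hco : ∀ m, coeff g m = if m ∈ s then ((tz L L m : ℝ) : ℂ) * Λ (fourier (-m)) else 0 := by
    intro m
    rw [hg, coeff_sum]
    simp only [coeff_smul, coeff_ex, mul_ite, mul_one, mul_zero]
    rw [Finset.sum_ite_eq' s m]
  refine ⟨g, ?_, ?_, ?_⟩
  · have h3 := norm_le_functional Λ s (fun n => ((tz L L n : ℝ) : ℂ))
    calc ‖g‖ ≤ ‖Λ‖ * ‖(∑ n ∈ s, ((tz L L n : ℝ) : ℂ) • ex n : L1)‖ := h3
      _ ≤ (C * b) * 3 := mul_le_mul hΛ hVn (norm_nonneg _) (by positivity)
      _ = C * 3 * b := by ring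
  · intro n hn
    have hn' := hLA n hn
    have hns : n ∈ s := by
      rw [hs, Finset.mem_Icc]
      omega
    rw [hco, if_pos hns, hval n (hA n hn), if_pos hn]
    have h3 : |(n : ℝ)| ≤ L := by
      have h4 : |n| ≤ (L : ℤ) := by
        rw [Int.abs_eq_natAbs]
        exact_mod_cast hn'
      have : ((|n| : ℤ) : ℝ) ≤ ((L : ℤ) : ℝ) := by exact_mod_cast h4
      push_cast at this
      exact this
    have h5 : tz L L n = 1 := by
      unfold tz
      have h6 : 1 ≤ ((L : ℝ) + L - |(n : ℝ)|) / L := by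
        rw [le_div_iff₀ hLr]
        linarith
      rw [min_eq_left h6, max_eq_right zero_le_one]
    rw [h5]
    simp
  · intro n hnE hnA
    rw [hco, hval n hnE, if_neg hnA, mul_zero, ite_self]

end

end Pool.Agent.H35.ILV
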